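import Pool.Agent.Lib.H94C.CLT
import Pool.Agent.Lib.H71V.GV

/-!
# H94C, file CN: THEOREM C for abstract crossing relations (with the good vertex lemma H71V.good_vertex)
-/

set_option autoImplicit false
set_option linter.unusedSectionVars false

namespace H94C

open Finset H98P H63F

variable {V : Type*} [Fintype V] [DecidableEq V]

variable {cross : Sym2 V → Sym2 V → Prop}

/-- Every vertex of the list is the head of an arc. -/
theorem exists_arc_in (L : List V) : ∀ (s v : V), v ∈ L → ∃ w, (w, v) ∈ arcs (s :: L) := by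
  induction L with
  | nil => intro s v hv; exact absurd hv List.not_mem_nil
  | cons a L ih =>
    intro s v hv
    rcases List.mem_cons.1 hv with rfl | h1
    · exact ⟨s, by simp [arcs]⟩
    · obtain ⟨w, hw⟩ := ih a v h1
      exact ⟨w, by
        rw [arcs]
        exact List.mem_cons_of_mem _ hw⟩

/-- The swap closure of two `s`-`t` paths through all vertices is a net if it has no directed cycle. -/
theorem net_closure {s t : V} {P Q : List V} (hall : ∀ v, v ∈ s :: t :: (P ++ Q)) {A : V → V → Prop}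
    (hP : ∀ p ∈ arcs (s :: (P ++ [t])), A p.1 p.2) (hQ : ∀ p ∈ arcs (s :: (Q ++ [t])), A p.1 p.2) {r : V → ℕ}
    (hr : ∀ i j, Cl cross A i j → r i < r j) {D : Finset (V × V)} (hD : ∀ p, p ∈ D ↔ Cl cross A p.1 p.2) :
    H71V.Net cross r s t D := by
  refine ⟨fun i j h => hr i j ((hD _).1 h), ?_, ?_, ?_⟩
  · intro i j k l h1 h2 h3
    have h4 : Cl cross A i j := (hD (i, j)).1 h1
    have h5 : Cl cross A k l := (hD (k, l)).1 h2
    exact (hD (i, l)).2 (h4.swap h5 h3)
  · intro v hv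
    rcases List.mem_cons.1 (hall v) with h1 | h1
    · obtain ⟨w, hw⟩ := exists_arc (s :: P) t v (by rw [h1]; exact List.mem_cons_self)
      exact ⟨w, (hD _).2 (Cl.base (hP _ hw))⟩
    · rcases List.mem_cons.1 h1 with h2 | h2
      · exact absurd h2 hv
      · rcases List.mem_append.1 h2 with h3 | h3
        · obtain ⟨w, hw⟩ := exists_arc (s :: P) t v (List.mem_cons_of_mem _ h3)
          exact ⟨w, (hD _).2 (Cl.base (hP _ hw))⟩
        · obtain ⟨w, hw⟩ := exists_arc (s :: Q) t v (List.mem_cons_of_mem _ h3)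
          exact ⟨w, (hD _).2 (Cl.base (hQ _ hw))⟩
  · intro v hv
    rcases List.mem_cons.1 (hall v) with h1 | h1
    · exact absurd h1 hv
    · rcases List.mem_cons.1 h1 with h2 | h2
      · obtain ⟨w, hw⟩ := exists_arc_in (P ++ [t]) s v (by rw [h2]; simp)
        exact ⟨w, (hD _).2 (Cl.base (hP _ hw))⟩
      · rcases List.mem_append.1 h2 with h3 | h3
        · obtain ⟨w, hw⟩ := exists_arc_in (P ++ [t]) s v (List.mem_append_left _ h3)
          exact ⟨w, (hD _).2 (Cl.base (hP _ hw))⟩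
        · obtain ⟨w, hw⟩ := exists_arc_in (Q ++ [t]) s v (List.mem_append_left _ h3)
          exact ⟨w, (hD _).2 (Cl.base (hQ _ hw))⟩

/-- FLOWS IN A NET: every multigraph `x` on the arcs of a net `D` can be replaced by a plane one on arcs of `D` with
the same out- and in-degrees. -/
theorem net_flow (hs : ∀ e f, cross e f → cross f e) (ha : ∀ a b c, ¬ cross s(a, b) s(a, c))
    (ho : ∀ a b c d, cross s(a, b) s(c, d) → ¬ cross s(a, c) s(b, d)) (hp : H71V.SepP cross) {r : V → ℕ} {s t : V}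
    {D : Finset (V × V)} (hD : H71V.Net cross r s t D) (x : V → V → ℕ) (hx : ∀ i j, x i j ≠ 0 → (i, j) ∈ D) :
    ∃ z : V → V → ℕ, (∀ i j, z i j ≠ 0 → (i, j) ∈ D) ∧
      (∀ i, ∑ j, z i j = ∑ j, x i j) ∧ (∀ j, ∑ i, z i j = ∑ i, x i j) ∧
      ∀ i j k l, z i j ≠ 0 → z k l ≠ 0 → ¬ cross s(i, j) s(k, l) :=
  nat_flow hs ha (H71V.good_vertex hs ha ho hp hD) hD.swp x hx

/-- THEOREM C (list form): `s, P, t` and `s, Q, t` are two paths which together contain every vertex once (a
Hamiltonian cycle, crossings allowed). If the swap closure of their arcs has no directed cycle, its pairs contain a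
plane Hamiltonian cycle. -/
theorem theoremC (hs : ∀ e f, cross e f → cross f e) (ha : ∀ a b c, ¬ cross s(a, b) s(a, c))
    (ho : ∀ a b c d, cross s(a, b) s(c, d) → ¬ cross s(a, c) s(b, d)) (hp : H71V.SepP cross) {s t : V}
    {P Q : List V} (hnd : (s :: t :: (P ++ Q)).Nodup) (hall : ∀ v, v ∈ s :: t :: (P ++ Q))
    (hV : 3 ≤ Fintype.card V) {A : V → V → Prop} (hP : ∀ p ∈ arcs (s :: (P ++ [t])), A p.1 p.2)
    (hQ : ∀ p ∈ arcs (s :: (Q ++ [t])), A p.1 p.2) (hac : ∀ v, ¬ Relation.TransGen (Cl cross A) v v) :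
    ∃ g : Fin (Fintype.card V) → V, Function.Injective g ∧ ∃ G : Finset (Sym2 V),
      (∀ e ∈ G, ∃ i j, Cl cross A i j ∧ e = s(i, j)) ∧ (∀ e ∈ G, ∀ e' ∈ G, ¬ cross e e') ∧
      (∀ i : Fin (Fintype.card V), ∀ h : i.1 + 1 < Fintype.card V, s(g i, g ⟨i.1 + 1, h⟩) ∈ G) ∧
      s(g ⟨Fintype.card V - 1, by omega⟩, g ⟨0, by omega⟩) ∈ G := by
  classical
  obtain ⟨r, hr⟩ := exists_rank hac
  obtain ⟨D, hD⟩ : ∃ D : Finset (V × V), ∀ p, p ∈ D ↔ Cl cross A p.1 p.2 :=
    ⟨univ.filter fun p => Cl cross A p.1 p.2, fun p => by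
      rw [mem_filter]
      exact ⟨fun h => h.2, fun h => ⟨mem_univ _, h⟩⟩⟩
  have hN := net_closure hall hP hQ hr hD
  obtain ⟨g, h1, G, h2, h3, h4, h5⟩ := tour_list hs ha (r := r) (D := D) hN.inc
    (H71V.good_vertex hs ha ho hp hN) hN.swp hnd hall hV
    (fun p hp => (hD _).2 (Cl.base (hP p hp))) (fun p hp => (hD _).2 (Cl.base (hQ p hp)))
  refine ⟨g, h1, G, fun e he => ?_, h3, h4, h5⟩
  obtain ⟨p, hp, hp'⟩ := h2 e he
  exact ⟨p.1, p.2, (hD _).1 hp, hp'⟩

end H94C
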