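import Pool.Agent.Lib.H36O.TR

/-!
# H94C, file AC: swap closed sets of arcs

`Swp cross Y`: if two arcs `(i, j)`, `(k, l)` of `Y` cross, then `(i, l)` is in `Y` (so is `(k, j)`, by symmetry).
`GV cross r D`: the good vertex property of every swap closed subset `Y` of `D`. From it: the plane subsets of every
nonempty swap closed `Y ⊆ D` form an acyclic complex, also for the sets of arcs of `D` with maximal `al i + be j`, so
every nonnegative matrix with support in a swap closed `D` can be made plane without changing the row and column sums.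
-/

set_option autoImplicit false
set_option linter.unusedSectionVars false

namespace H94C

open Finset H98P H63F

variable {V : Type*} [Fintype V] [DecidableEq V]

/-- the crossing relation on pairs -/
def crP (cross : Sym2 V → Sym2 V → Prop) (p q : V × V) : Prop := cross s(p.1, p.2) s(q.1, q.2)

/-- swap closed sets of arcs -/
def Swp (cross : Sym2 V → Sym2 V → Prop) (Y : Finset (V × V)) : Prop :=
  ∀ i j k l, (i, j) ∈ Y → (k, l) ∈ Y → cross s(i, j) s(k, l) → (i, l) ∈ Y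

/-- good vertex property of all swap closed subsets of `D` -/
def GV (cross : Sym2 V → Sym2 V → Prop) (r : V → ℕ) (D : Finset (V × V)) : Prop :=
  ∀ Y : Finset (V × V), Y ⊆ D → Swp cross Y → ∀ b : V, (∃ a, (a, b) ∈ Y) → (∀ p ∈ Y, r b ≤ r p.2) →
    ∀ H : Finset (V × V), H ⊆ Y → (∀ p ∈ H, ∀ q ∈ H, ¬ cross s(p.1, p.2) s(q.1, q.2)) → (∀ p ∈ H, p.2 ≠ b) →
      ∃ i, (i, b) ∈ Y ∧ ∀ e ∈ H, ¬ cross s(i, b) s(e.1, e.2)

variable {cross : Sym2 V → Sym2 V → Prop}

/-- The plane subsets of a nonempty swap closed set form an acyclic complex. -/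
theorem ac_swp (hs : ∀ e f, cross e f → cross f e) (ha : ∀ a b c, ¬ cross s(a, b) s(a, c)) {r : V → ℕ}
    {D : Finset (V × V)} (hg : GV cross r D) {Y : Finset (V × V)} (hY : Y ⊆ D) (hw : Swp cross Y)
    (hne : Y.Nonempty) : AC fun G => Plane (crP cross) G ∧ G ⊆ Y := by
  classical
  obtain ⟨p0, hp0, hmin⟩ := Finset.exists_min_image Y (fun p => r p.2) hne
  obtain ⟨b, hb⟩ : ∃ b, b = p0.2 := ⟨_, rfl⟩
  have hmin' : ∀ p ∈ Y, r b ≤ r p.2 := by
    intro p hp
    rw [hb]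
    exact hmin p hp
  intro z hz hbz
  obtain ⟨d, h1, h2⟩ := H98P.acyclic (cross := crP cross) (fun e f => hs _ _) (L := Y)
    (S := Y.filter fun p => p.2 = b) (filter_subset _ _) (fun p hp q hq hx => by
      rw [mem_filter] at hp hq
      unfold crP at hx
      rw [hp.2, hq.2, Sym2.eq_swap (b := b), Sym2.eq_swap (b := b)] at hx
      exact ha _ _ _ hx) (fun F hF hFp => by
      obtain ⟨i, hi, hfree⟩ := hg Y hY hw b ⟨p0.1, by rw [hb]; exact hp0⟩ hmin' F
        (fun f hf => (mem_sdiff.1 (hF hf)).1) (fun p hp q hq => hFp p hp q hq)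
        (fun p hp h3 => (mem_sdiff.1 (hF hp)).2 (mem_filter.2 ⟨(mem_sdiff.1 (hF hp)).1, h3⟩))
      exact ⟨(i, b), mem_filter.2 ⟨hi, rfl⟩, fun f hf hx => hfree f hf hx⟩)
    (c := z) (fun σ hσ => ⟨(hz σ hσ).2, (hz σ hσ).1⟩) hbz
  exact ⟨d, fun s hs => ⟨(h1 s hs).2, (h1 s hs).1⟩, h2⟩

/-- The set of arcs of `D` with maximal `al i + be j` is swap closed. -/
theorem swp_argmax (hs : ∀ e f, cross e f → cross f e) {D Y : Finset (V × V)} (hD : Swp cross D) (al be : V → ℝ)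
    (hY : ∀ p, p ∈ Y ↔ p ∈ D ∧ ∀ q ∈ D, al q.1 + be q.2 ≤ al p.1 + be p.2) : Swp cross Y := by
  intro i j k l h1 h2 hx
  rw [hY] at h1 h2
  have h3 : (i, l) ∈ D := hD i j k l h1.1 h2.1 hx
  have h4 : (k, j) ∈ D := hD k l i j h2.1 h1.1 (hs _ _ hx)
  have h5 := h1.2 (i, l) h3
  have h6 := h1.2 (k, j) h4
  have h7 := h1.2 (k, l) h2.1
  have h8 := h2.2 (i, j) h1.1
  refine (hY _).2 ⟨h3, fun q hq => ?_⟩
  have h9 := h1.2 q hq
  simp only at h5 h6 h7 h8 h9 ⊢
  linarith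

/-- The hypothesis `hac` of `H36O.transport` for a swap closed `D` with the good vertex property. -/
theorem ac_argmax (hs : ∀ e f, cross e f → cross f e) (ha : ∀ a b c, ¬ cross s(a, b) s(a, c)) {r : V → ℕ}
    {D : Finset (V × V)} (hg : GV cross r D) (hD : Swp cross D) (hne : D.Nonempty) (al be : V → ℝ) :
    AC fun G => Plane (crP cross) G ∧ ∀ p ∈ G, p ∈ D ∧ ∀ q ∈ D, al q.1 + be q.2 ≤ al p.1 + be p.2 := by
  classical
  obtain ⟨Y, hY⟩ : ∃ Y : Finset (V × V), ∀ p, p ∈ Y ↔ p ∈ D ∧ ∀ q ∈ D, al q.1 + be q.2 ≤ al p.1 + be p.2 :=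
    ⟨D.filter fun p => ∀ q ∈ D, al q.1 + be q.2 ≤ al p.1 + be p.2, fun p => mem_filter⟩
  have h1 : (fun G => Plane (crP cross) G ∧
      ∀ p ∈ G, p ∈ D ∧ ∀ q ∈ D, al q.1 + be q.2 ≤ al p.1 + be p.2) =
      fun G => Plane (crP cross) G ∧ G ⊆ Y := by
    funext G
    apply propext
    refine and_congr_right fun _ => ?_
    exact ⟨fun h p hp => (hY p).2 (h p hp), fun h p hp => (hY p).1 (h hp)⟩
  rw [h1]
  refine ac_swp hs ha hg (fun p hp => ((hY p).1 hp).1) (swp_argmax hs hD al be hY) ?_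
  obtain ⟨p, hp, hmax⟩ := Finset.exists_max_image D (fun p => al p.1 + be p.2) hne
  exact ⟨p, (hY p).2 ⟨hp, hmax⟩⟩

/-- REAL FLOWS in a swap closed `D`: a nonnegative matrix with support in `D` can be made plane without changing the
row and column sums. -/
theorem real_flow (hs : ∀ e f, cross e f → cross f e) (ha : ∀ a b c, ¬ cross s(a, b) s(a, c)) {r : V → ℕ}
    {D : Finset (V × V)} (hg : GV cross r D) (hD : Swp cross D) (x : V → V → ℝ) (hx0 : ∀ i j, 0 ≤ x i j)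
    (hx : ∀ i j, x i j ≠ 0 → (i, j) ∈ D) :
    ∃ y : V → V → ℝ, (∀ i j, 0 ≤ y i j) ∧ (∀ i j, y i j ≠ 0 → (i, j) ∈ D) ∧
      (∀ i, ∑ j, y i j = ∑ j, x i j) ∧ (∀ j, ∑ i, y i j = ∑ i, x i j) ∧
      ∀ i j k l, y i j ≠ 0 → y k l ≠ 0 → ¬ cross s(i, j) s(k, l) := by
  by_cases hne : D.Nonempty
  · obtain ⟨y, G, hG, h1, h2, h3, h4⟩ := H36O.transport (Ga := D) (K := Plane (crP cross))
      (fun s t hst ht e he f hf => ht e (hst he) f (hst hf)) (fun e he => absurd he (notMem_empty e))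
      (ac_argmax hs ha hg hD hne) x hx0 (fun i j hij => hx i j hij)
    exact ⟨y, h1, fun i j hij => (h2 i j hij).2, h3, h4,
      fun i j k l h5 h6 => hG _ (h2 i j h5).1 _ (h2 k l h6).1⟩
  · have hz : ∀ i j, x i j = 0 := by
      intro i j
      by_contra h1
      exact hne ⟨(i, j), hx i j h1⟩
    exact ⟨x, hx0, hx, fun _ => rfl, fun _ => rfl, fun i j k l h1 => absurd (hz i j) h1⟩

end H94C
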