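import Pool.Agent.Lib.H94C.AC
import Pool.Agent.Lib.H20S.R
import Pool.Agent.Lib.H20S.Z
import Pool.Agent.Lib.H96H.J2

/-!
# H94C, file CF: from a tour in an acyclic swap closed set of arcs to a plane Hamiltonian cycle
-/

set_option autoImplicit false
set_option linter.unusedSectionVars false

namespace H94C

open Finset H98P H63F

variable {V : Type*} [Fintype V] [DecidableEq V]

variable {cross : Sym2 V → Sym2 V → Prop}

/-- NATURAL FLOWS in a swap closed `D`. -/
theorem nat_flow (hs : ∀ e f, cross e f → cross f e) (ha : ∀ a b c, ¬ cross s(a, b) s(a, c)) {r : V → ℕ}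
    {D : Finset (V × V)} (hg : GV cross r D) (hD : Swp cross D) (x : V → V → ℕ)
    (hx : ∀ i j, x i j ≠ 0 → (i, j) ∈ D) :
    ∃ z : V → V → ℕ, (∀ i j, z i j ≠ 0 → (i, j) ∈ D) ∧
      (∀ i, ∑ j, z i j = ∑ j, x i j) ∧ (∀ j, ∑ i, z i j = ∑ i, x i j) ∧
      ∀ i j k l, z i j ≠ 0 → z k l ≠ 0 → ¬ cross s(i, j) s(k, l) := by
  obtain ⟨y, h0, h1, h2, h3, h4⟩ := real_flow hs ha hg hD (fun i j => (x i j : ℝ)) (fun i j => Nat.cast_nonneg _)
    (fun i j h => hx i j fun h' => h (by rw [h', Nat.cast_zero]))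
  obtain ⟨z, k1, k2, k3⟩ := H20S.round x y h0 h2 h3
  exact ⟨z, fun i j h => h1 i j (k1 i j h), k2, k3, fun i j k l h h' => h4 i j k l (k1 i j h) (k1 k l h')⟩

/-- THEOREM C, matrix form: `x` has the row and column sums of two paths from `f` to `l` through all vertices and
support in an acyclic swap closed set `D` with the good vertex property; then the pairs of `D` contain a plane
Hamiltonian cycle. -/
theorem tour (hs : ∀ e f, cross e f → cross f e) (ha : ∀ a b c, ¬ cross s(a, b) s(a, c)) {r : V → ℕ}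
    {D : Finset (V × V)} (hr : ∀ i j, (i, j) ∈ D → r i < r j) (hg : GV cross r D) (hD : Swp cross D) {f l : V}
    (hfl : f ≠ l) (hV : 3 ≤ Fintype.card V) (x : V → V → ℕ) (hx : ∀ i j, x i j ≠ 0 → (i, j) ∈ D)
    (hrow : ∀ i, ∑ j, x i j = if i = f then 2 else if i = l then 0 else 1)
    (hcol : ∀ j, ∑ i, x i j = if j = f then 0 else if j = l then 2 else 1) :
    ∃ g : Fin (Fintype.card V) → V, Function.Injective g ∧ ∃ G : Finset (Sym2 V),
      (∀ e ∈ G, ∃ p ∈ D, e = s(p.1, p.2)) ∧ (∀ e ∈ G, ∀ e' ∈ G, ¬ cross e e') ∧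
      (∀ i : Fin (Fintype.card V), ∀ h : i.1 + 1 < Fintype.card V, s(g i, g ⟨i.1 + 1, h⟩) ∈ G) ∧
      s(g ⟨Fintype.card V - 1, by omega⟩, g ⟨0, by omega⟩) ∈ G := by
  classical
  obtain ⟨z, h1, h2, h3, h4⟩ := nat_flow hs ha hg hD x hx
  obtain ⟨G, hG⟩ : ∃ G : Finset (Sym2 V), ∀ e, e ∈ G ↔ ∃ p : V × V, z p.1 p.2 ≠ 0 ∧ e = s(p.1, p.2) :=
    ⟨univ.filter fun e => ∃ p : V × V, z p.1 p.2 ≠ 0 ∧ e = s(p.1, p.2), fun e => by
      rw [mem_filter]
      exact ⟨fun h => h.2, fun h => ⟨mem_univ _, h⟩⟩⟩
  have hloop : ∀ v, s(v, v) ∉ G := by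
    intro v hv
    obtain ⟨p, hp, hp'⟩ := (hG _).1 hv
    have h5 := hr p.1 p.2 (h1 _ _ hp)
    have h6 : v = p.1 ∧ v = p.2 := by
      rcases Sym2.eq_iff.1 hp' with ⟨h6, h7⟩ | ⟨h6, h7⟩
      · exact ⟨h6, h7⟩
      · exact ⟨h7, h6⟩
    rw [← h6.1, ← h6.2] at h5
    exact lt_irrefl _ h5
  obtain ⟨y, hy, hy'⟩ := H20S.fracHam_of_nat (r := r) (z := z) hfl hV (fun i j h => hr i j (h1 i j h))
    (fun i => by rw [h2, hrow]) (fun j => by rw [h3, hcol]) (G := G)
    (fun i j h => (hG _).2 ⟨(i, j), h, rfl⟩) hloop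
  obtain ⟨g, hg1, hg2, hg3⟩ := H96H.ham_cycle hV hy hy'
  refine ⟨g, hg1, G, fun e he => ?_, fun e he e' he' => ?_, hg2, hg3⟩
  · obtain ⟨p, hp, hp'⟩ := (hG e).1 he
    exact ⟨p, h1 _ _ hp, hp'⟩
  · obtain ⟨p, hp, rfl⟩ := (hG e).1 he
    obtain ⟨q, hq, rfl⟩ := (hG e').1 he'
    exact h4 _ _ _ _ hp hq

/-- the arcs of a list -/
def arcs : List V → List (V × V)
  | [] => []
  | [_] => []
  | a :: b :: L => (a, b) :: arcs (b :: L)

theorem arcs_fst : ∀ L : List V, (arcs L).map Prod.fst = L.dropLast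
  | [] => rfl
  | [_] => rfl
  | a :: b :: L => by
    rw [arcs, List.map_cons, arcs_fst (b :: L), List.dropLast_cons_cons]

theorem arcs_snd : ∀ L : List V, (arcs L).map Prod.snd = L.tail
  | [] => rfl
  | [_] => rfl
  | a :: b :: L => by
    rw [arcs, List.map_cons, arcs_snd (b :: L), List.tail_cons, List.tail_cons]

theorem sum_count_fst (L : List (V × V)) (i : V) : ∑ j, L.count (i, j) = (L.map Prod.fst).count i := by
  induction L with
  | nil => simp
  | cons p L ih =>
    rw [List.map_cons, List.count_cons]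
    simp_rw [List.count_cons]
    rw [Finset.sum_add_distrib, ih]
    congr 1
    by_cases h : p.1 = i
    · rw [if_pos (by simpa using h), Finset.sum_eq_single p.2]
      · rw [if_pos (by simp [← h])]
      · intro j _ hj
        rw [if_neg]
        intro h1
        exact hj (Prod.ext_iff.1 (eq_of_beq h1)).2.symm
      · intro h1
        exact absurd (mem_univ _) h1
    · rw [if_neg (by simpa using h)]
      refine Finset.sum_eq_zero fun j _ => ?_
      rw [if_neg]
      intro h1
      exact h (Prod.ext_iff.1 (eq_of_beq h1)).1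

theorem sum_count_snd (L : List (V × V)) (j : V) : ∑ i, L.count (i, j) = (L.map Prod.snd).count j := by
  induction L with
  | nil => simp
  | cons p L ih =>
    rw [List.map_cons, List.count_cons]
    simp_rw [List.count_cons]
    rw [Finset.sum_add_distrib, ih]
    congr 1
    by_cases h : p.2 = j
    · rw [if_pos (by simpa using h), Finset.sum_eq_single p.1]
      · rw [if_pos (by simp [← h])]
      · intro i _ hi
        rw [if_neg]
        intro h1
        exact hi (Prod.ext_iff.1 (eq_of_beq h1)).1.symm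
      · intro h1
        exact absurd (mem_univ _) h1
    · rw [if_neg (by simpa using h)]
      refine Finset.sum_eq_zero fun i _ => ?_
      rw [if_neg]
      intro h1
      exact h (Prod.ext_iff.1 (eq_of_beq h1)).2

/-- THEOREM C, list form: `s, P, t` and `s, Q, t` are two paths which together contain every vertex once. -/
theorem tour_list (hs : ∀ e f, cross e f → cross f e) (ha : ∀ a b c, ¬ cross s(a, b) s(a, c)) {r : V → ℕ}
    {D : Finset (V × V)} (hr : ∀ i j, (i, j) ∈ D → r i < r j) (hg : GV cross r D) (hD : Swp cross D) {s t : V}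
    {P Q : List V} (hnd : (s :: t :: (P ++ Q)).Nodup) (hall : ∀ v, v ∈ s :: t :: (P ++ Q))
    (hV : 3 ≤ Fintype.card V) (hP : ∀ p ∈ arcs (s :: (P ++ [t])), p ∈ D) (hQ : ∀ p ∈ arcs (s :: (Q ++ [t])), p ∈ D) :
    ∃ g : Fin (Fintype.card V) → V, Function.Injective g ∧ ∃ G : Finset (Sym2 V),
      (∀ e ∈ G, ∃ p ∈ D, e = s(p.1, p.2)) ∧ (∀ e ∈ G, ∀ e' ∈ G, ¬ cross e e') ∧
      (∀ i : Fin (Fintype.card V), ∀ h : i.1 + 1 < Fintype.card V, s(g i, g ⟨i.1 + 1, h⟩) ∈ G) ∧
      s(g ⟨Fintype.card V - 1, by omega⟩, g ⟨0, by omega⟩) ∈ G := by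
  classical
  have hst : s ≠ t := by
    intro h
    rw [h] at hnd
    simp at hnd
  have hsP : s ∉ P ++ Q := fun h => (List.nodup_cons.1 hnd).1 (List.mem_cons_of_mem _ h)
  have htP : t ∉ P ++ Q := (List.nodup_cons.1 (List.nodup_cons.1 hnd).2).1
  have hPQ : (P ++ Q).Nodup := (List.nodup_cons.1 (List.nodup_cons.1 hnd).2).2
  have hcnt : ∀ v, v ≠ s → v ≠ t → P.count v + Q.count v = 1 := by
    intro v h1 h2
    rw [← List.count_append]
    refine List.count_eq_one_of_mem hPQ ?_
    rcases List.mem_cons.1 (hall v) with h3 | h3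
    · exact absurd h3 h1
    · rcases List.mem_cons.1 h3 with h4 | h4
      · exact absurd h4 h2
      · exact h4
  have hcs : P.count s + Q.count s = 0 := by
    rw [← List.count_append]
    exact List.count_eq_zero.2 hsP
  have hct : P.count t + Q.count t = 0 := by
    rw [← List.count_append]
    exact List.count_eq_zero.2 htP
  refine tour hs ha hr hg hD hst hV
    (fun i j => (arcs (s :: (P ++ [t])) ++ arcs (s :: (Q ++ [t]))).count (i, j)) ?_ ?_ ?_
  · intro i j h
    rcases List.mem_append.1 (List.count_pos_iff.1 (Nat.pos_of_ne_zero h)) with h1 | h1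
    · exact hP _ h1
    · exact hQ _ h1
  · intro i
    rw [sum_count_fst, List.map_append, arcs_fst, arcs_fst, List.count_append]
    have h1 : ∀ R : List V, (s :: (R ++ [t])).dropLast = s :: R := by
      intro R
      rw [← List.cons_append, List.dropLast_concat]
    rw [h1, h1, List.count_cons, List.count_cons]
    by_cases his : i = s
    · rw [if_pos his, his]
      simp
      omega
    · rw [if_neg his]
      have h2 : ¬ (s == i) = true := by
        intro h3
        exact his (eq_of_beq h3).symm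
      rw [if_neg h2]
      by_cases hit : i = t
      · rw [if_pos hit, hit]
        omega
      · rw [if_neg hit]
        have h3 := hcnt i his hit
        omega
  · intro j
    rw [sum_count_snd, List.map_append, arcs_snd, arcs_snd, List.count_append, List.tail_cons, List.tail_cons,
      List.count_append, List.count_append]
    by_cases hjs : j = s
    · rw [if_pos hjs, hjs]
      have h2 : List.count s [t] = 0 := by
        rw [List.count_eq_zero, List.mem_singleton]
        exact hst
      rw [h2]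
      omega
    · rw [if_neg hjs]
      by_cases hjt : j = t
      · rw [if_pos hjt, hjt]
        have h2 : List.count t [t] = 1 := by simp
        rw [h2]
        omega
      · rw [if_neg hjt]
        have h2 : List.count j [t] = 0 := by
          rw [List.count_eq_zero, List.mem_singleton]
          exact hjt
        rw [h2]
        have h3 := hcnt j hjs hjt
        omega

end H94C
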