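import Pool.Agent.Lib.H94C.CF

/-!
# H94C, file CL: the swap closure of a tour
-/

set_option autoImplicit false
set_option linter.unusedSectionVars false

namespace H94C

open Finset H98P H63F

variable {V : Type*} [Fintype V] [DecidableEq V]

variable {cross : Sym2 V → Sym2 V → Prop}

/-- The swap closure of the set of arcs `A`: it contains `A`, and with two crossing arcs `(i, j)` and `(k, l)` it
contains `(i, l)` (and `(k, j)`, by symmetry). -/
inductive Cl (cross : Sym2 V → Sym2 V → Prop) (A : V → V → Prop) : V → V → Prop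
  | base {i j : V} : A i j → Cl cross A i j
  | swap {i j k l : V} : Cl cross A i j → Cl cross A k l → cross s(i, j) s(k, l) → Cl cross A i l

/-- A relation without directed cycles on a finite set has a rank function. -/
theorem exists_rank {R : V → V → Prop} (h : ∀ v, ¬ Relation.TransGen R v v) :
    ∃ r : V → ℕ, ∀ i j, R i j → r i < r j := by
  classical
  refine ⟨fun v => (univ.filter fun u => Relation.TransGen R u v).card, fun i j hij => card_lt_card ?_⟩
  rw [Finset.ssubset_iff_of_subset]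
  · exact ⟨i, mem_filter.2 ⟨mem_univ _, Relation.TransGen.single hij⟩, fun h1 => h i (mem_filter.1 h1).2⟩
  · intro u hu
    rw [mem_filter] at hu ⊢
    exact ⟨mem_univ _, hu.2.tail hij⟩

/-- Every vertex of the list but the last is the tail of an arc. -/
theorem exists_arc (L : List V) (t : V) : ∀ v ∈ L, ∃ w, (v, w) ∈ arcs (L ++ [t]) := by
  induction L with
  | nil => intro v hv; exact absurd hv List.not_mem_nil
  | cons a L ih =>
    intro v hv
    cases L with
    | nil =>
      rw [List.mem_singleton] at hv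
      exact ⟨t, by rw [hv]; simp [arcs]⟩
    | cons b L =>
      rcases List.mem_cons.1 hv with rfl | h1
      · exact ⟨b, by simp [arcs]⟩
      · obtain ⟨w, hw⟩ := ih v h1
        exact ⟨w, by
          rw [List.cons_append, List.cons_append, arcs]
          exact List.mem_cons_of_mem _ hw⟩

/-- THEOREM C: if the swap closure of the two paths `s, P, t` and `s, Q, t`, which together contain every vertex
once, has no directed cycle, its pairs contain a plane Hamiltonian cycle. -/
theorem tour_closure (hs : ∀ e f, cross e f → cross f e) (ha : ∀ a b c, ¬ cross s(a, b) s(a, c)) {s t : V}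
    (hgv : ∀ (r : V → ℕ) (D : Finset (V × V)), (∀ i j, (i, j) ∈ D → r i < r j) → Swp cross D →
      (∀ v, v ≠ t → ∃ w, (v, w) ∈ D) → GV cross r D)
    {P Q : List V} (hnd : (s :: t :: (P ++ Q)).Nodup) (hall : ∀ v, v ∈ s :: t :: (P ++ Q))
    (hV : 3 ≤ Fintype.card V) {A : V → V → Prop} (hP : ∀ p ∈ arcs (s :: (P ++ [t])), A p.1 p.2)
    (hQ : ∀ p ∈ arcs (s :: (Q ++ [t])), A p.1 p.2) (hac : ∀ v, ¬ Relation.TransGen (Cl cross A) v v) :
    ∃ g : Fin (Fintype.card V) → V, Function.Injective g ∧ ∃ G : Finset (Sym2 V),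
      (∀ e ∈ G, ∃ i j, Cl cross A i j ∧ e = s(i, j)) ∧ (∀ e ∈ G, ∀ e' ∈ G, ¬ cross e e') ∧
      (∀ i : Fin (Fintype.card V), ∀ h : i.1 + 1 < Fintype.card V, s(g i, g ⟨i.1 + 1, h⟩) ∈ G) ∧
      s(g ⟨Fintype.card V - 1, by omega⟩, g ⟨0, by omega⟩) ∈ G := by
  classical
  obtain ⟨r, hr⟩ := exists_rank hac
  obtain ⟨D, hD⟩ : ∃ D : Finset (V × V), ∀ p, p ∈ D ↔ Cl cross A p.1 p.2 :=
    ⟨univ.filter fun p => Cl cross A p.1 p.2, fun p => by
      rw [mem_filter]
      exact ⟨fun h => h.2, fun h => ⟨mem_univ _, h⟩⟩⟩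
  have hsw : Swp cross D := by
    intro i j k l h1 h2 h3
    have h4 : Cl cross A i j := (hD (i, j)).1 h1
    have h5 : Cl cross A k l := (hD (k, l)).1 h2
    exact (hD (i, l)).2 (h4.swap h5 h3)
  have hout : ∀ v, v ≠ t → ∃ w, (v, w) ∈ D := by
    intro v hv
    rcases List.mem_cons.1 (hall v) with h1 | h1
    · obtain ⟨w, hw⟩ := exists_arc (s :: P) t v (by rw [h1]; exact List.mem_cons_self)
      exact ⟨w, (hD _).2 (Cl.base (hP _ hw))⟩
    · rcases List.mem_cons.1 h1 with h2 | h2
      · exact absurd h2 hv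
      · rcases List.mem_append.1 h2 with h3 | h3
        · obtain ⟨w, hw⟩ := exists_arc (s :: P) t v (List.mem_cons_of_mem _ h3)
          exact ⟨w, (hD _).2 (Cl.base (hP _ hw))⟩
        · obtain ⟨w, hw⟩ := exists_arc (s :: Q) t v (List.mem_cons_of_mem _ h3)
          exact ⟨w, (hD _).2 (Cl.base (hQ _ hw))⟩
  obtain ⟨g, h1, G, h2, h3, h4, h5⟩ := tour_list hs ha (r := r) (D := D)
    (fun i j h => hr i j ((hD _).1 h))
    (hgv r D (fun i j h => hr i j ((hD _).1 h)) hsw hout) hsw hnd hall hV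
    (fun p hp => (hD _).2 (Cl.base (hP p hp))) (fun p hp => (hD _).2 (Cl.base (hQ p hp)))
  refine ⟨g, h1, G, fun e he => ?_, h3, h4, h5⟩
  obtain ⟨p, hp, hp'⟩ := h2 e he
  exact ⟨p.1, p.2, (hD _).1 hp, hp'⟩

end H94C
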